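import Mathlib

/-!
# The mixed loneliness parameter space is not determined by finitely many speed sets

For every `k ≥ 3` and every finite family `F` of speed sets of length `k` there is a point
`(1 / 2 - δ, 2 δ, e, …, e)`, `δ = √2 / 16`, that lies in `A s` for all `s` in `F` but not in the
mixed loneliness parameter space: for the speeds `1, 2, N, N + 1, …` the first two coordinates
force the time to be `± (1 / 2 - δ)` modulo one, and `N (1 / 2 - δ)` can be arbitrarily close to an
integer.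
-/

set_option autoImplicit false

namespace Pool.Agent.Results.MP_b1d502_nt.NotFinitelyDetermined

/-- The speed sets of length `k`: `k`-tuples of pairwise distinct positive integers. -/
def SpeedSet (k : ℕ) : Set (Fin k → ℕ) := {s | (∀ i, 0 < s i) ∧ Function.Injective s}

/-- The set of all `d ∈ (0, 1/2] ^ k` such that at some time `t` the distance of `s i * t` to the
nearest integer is at least `d i` for all `i`. -/
def A {k : ℕ} (s : Fin k → ℕ) : Set (Fin k → ℝ) :=
  {d | (∀ i, 0 < d i ∧ d i ≤ 1 / 2) ∧ ∃ t : ℝ, ∀ i, d i ≤ |s i * t - round (s i * t)|}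

/-- The mixed loneliness parameter space. -/
def MLPS (k : ℕ) : Set (Fin k → ℝ) :=
  {d | (∀ i, 0 < d i ∧ d i ≤ 1 / 2) ∧ ∀ s ∈ SpeedSet k, d ∈ A s}

/-- The mixed loneliness parameter space of dimension `k` is determined by finitely many speed
sets. -/
def FinitelyDetermined (k : ℕ) : Prop :=
  ∃ F : Finset (Fin k → ℕ), (∀ s ∈ F, s ∈ SpeedSet k) ∧
    MLPS k = {d | (∀ i, 0 < d i ∧ d i ≤ 1 / 2) ∧ ∀ s ∈ F, d ∈ A s}

/-- the constant `δ` -/
noncomputable def δ : ℝ := √2 / 16

theorem δ_pos : 0 < δ := by unfold δ; positivity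

theorem δ_lt : 8 * δ < 1 := by
  unfold δ
  have : √2 < 2 := by
    rw [Real.sqrt_lt' (by norm_num)]; norm_num
  linarith

theorem δ_irr : Irrational δ := by
  have := irrational_sqrt_two
  unfold δ
  exact_mod_cast this.div_natCast (m := 16) (by norm_num)

theorem le_nd {c y : ℝ} (n : ℤ) (h1 : c ≤ y - n) (h2 : y - n ≤ 1 - c) : c ≤ |y - round y| := by
  rcases le_or_gt (round y) n with h | h
  · have : ((round y : ℤ) : ℝ) ≤ n := by exact_mod_cast h
    exact le_trans (by linarith) (le_abs_self _)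
  · have : (n : ℝ) + 1 ≤ ((round y : ℤ) : ℝ) := by exact_mod_cast h
    exact le_trans (by linarith) (neg_le_abs _)

theorem nd_le (y : ℝ) (n : ℤ) : |y - round y| ≤ |y - n| := round_le y n

/-- For any two distinct speeds there is an irrational time `t` with `‖s₁ t‖ ≥ 1 / 2 - δ` and
`‖s₂ t‖ ≥ 2 δ`. -/
theorem feas (s₁ s₂ : ℕ) (h₁ : 0 < s₁) (h₂ : 0 < s₂) (hne : s₁ ≠ s₂) :
    ∃ t : ℝ, Irrational t ∧ 1 / 2 - δ ≤ |s₁ * t - round (s₁ * t)| ∧
      2 * δ ≤ |s₂ * t - round (s₂ * t)| := by
  obtain ⟨g, b, a, hg, hcop, hb, ha⟩ := Nat.exists_coprime' (Nat.gcd_pos_of_pos_left s₂ h₁)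
  have hδ := δ_pos
  have hδ' := δ_lt
  have hgR : (0 : ℝ) < g := by exact_mod_cast hg
  -- it is enough to find `q` rational and `r ≠ 0` rational
  suffices h : ∃ q r : ℚ, r ≠ 0 ∧
      1 / 2 - δ ≤ |(b : ℝ) * (q + r * δ) - round ((b : ℝ) * (q + r * δ))| ∧
      2 * δ ≤ |(a : ℝ) * (q + r * δ) - round ((a : ℝ) * (q + r * δ))| by
    obtain ⟨q, r, hr, h3, h4⟩ := h
    refine ⟨(q + r * δ) / g, ?_, ?_, ?_⟩
    · have : Irrational ((q : ℝ) + r * δ) := (δ_irr.ratCast_mul hr).ratCast_add q
      exact this.div_natCast hg.ne'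
    · have : (s₁ : ℝ) * ((q + r * δ) / g) = b * (q + r * δ) := by
        rw [hb]; push_cast; field_simp
      rw [this]; exact h3
    · have : (s₂ : ℝ) * ((q + r * δ) / g) = a * (q + r * δ) := by
        rw [ha]; push_cast; field_simp
      rw [this]; exact h4
  have hb0 : 0 < b := Nat.pos_of_ne_zero (by rintro rfl; simp at hb; omega)
  have ha0 : 0 < a := Nat.pos_of_ne_zero (by rintro rfl; simp at ha; omega)
  have haR : (0 : ℝ) < a := by exact_mod_cast ha0
  have hbR : (0 : ℝ) < b := by exact_mod_cast hb0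
  rcases Nat.lt_or_ge b 2 with hb2 | hb2
  · have hb1 : b = 1 := by omega
    have ha2 : 2 ≤ a := by
      by_contra h
      have : a = 1 := by omega
      subst this; subst hb1; exact hne (by rw [hb, ha])
    have ha2R : (2 : ℝ) ≤ a := by exact_mod_cast ha2
    subst hb1
    rcases Nat.even_or_odd a with ⟨c, hc⟩ | ⟨c, hc⟩
    · refine ⟨1 / 2, 2 / a, by positivity, ?_, ?_⟩
      · have h5 : (2 : ℝ) / a * δ ≤ δ := by
          rw [div_mul_eq_mul_div, div_le_iff₀ haR]; nlinarith
        have h6 : 0 ≤ (2 : ℝ) / a * δ := by positivity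
        push_cast
        refine le_nd 0 ?_ ?_
        · push_cast; linarith
        · push_cast; linarith
      · have h5 : (a : ℝ) * ((1 / 2 : ℚ) + (2 / a : ℚ) * δ) = c + 2 * δ := by
          push_cast
          have : (a : ℝ) = 2 * c := by rw [hc]; push_cast; ring
          field_simp
          rw [this]; ring
        rw [h5]
        refine le_nd c ?_ ?_
        · push_cast; linarith
        · push_cast; linarith
    · refine ⟨1 / 2, 1 / a, by positivity, ?_, ?_⟩
      · have h5 : (1 : ℝ) / a * δ ≤ δ := by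
          rw [div_mul_eq_mul_div, div_le_iff₀ haR]; nlinarith
        have h6 : 0 ≤ (1 : ℝ) / a * δ := by positivity
        push_cast
        refine le_nd 0 ?_ ?_
        · push_cast; linarith
        · push_cast; linarith
      · have h5 : (a : ℝ) * ((1 / 2 : ℚ) + (1 / a : ℚ) * δ) = c + 1 / 2 + δ := by
          push_cast
          have : (a : ℝ) = 2 * c + 1 := by rw [hc]; push_cast; ring
          field_simp
          rw [this]
        rw [h5]
        refine le_nd c ?_ ?_
        · push_cast; linarith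
        · push_cast; linarith
  · have hb2R : (2 : ℝ) ≤ b := by exact_mod_cast hb2
    -- Bezout
    have hbez : ∃ u v : ℤ, (a : ℤ) * u + b * v = 1 := by
      have := Nat.gcd_eq_gcd_ab a b
      rw [(Nat.coprime_comm.1 hcop).gcd_eq_one] at this
      exact ⟨_, _, by rw [← this]; norm_num⟩
    obtain ⟨u, v, huv⟩ := hbez
    set x : ℝ := a / (2 * b) with hx
    set m : ℤ := ⌈(1 / 4 - x) * b⌉ with hm
    have hm1 : (1 / 4 - x) * b ≤ m := Int.le_ceil _
    have hm2 : (m : ℝ) < (1 / 4 - x) * b + 1 := Int.ceil_lt_add_one _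
    -- the time
    obtain ⟨N, hN⟩ := exists_nat_gt ((a + b : ℝ) / (1 / 4 - 2 * δ))
    have hd4 : 0 < 1 / 4 - 2 * δ := by linarith
    have hN0 : (0 : ℝ) < N := lt_trans (by positivity) hN
    have hNa : (a : ℝ) * (1 / N * δ) ≤ 1 / 4 - 2 * δ := by
      rw [div_lt_iff₀ hd4] at hN
      have : (a : ℝ) * (1 / N * δ) = a * δ / N := by ring
      rw [this, div_le_iff₀ hN0]
      nlinarith
    have hNb : (b : ℝ) * (1 / N * δ) ≤ δ := by
      have h7 : (b : ℝ) ≤ N := by
        rw [div_lt_iff₀ hd4] at hN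
        nlinarith
      have : (b : ℝ) * (1 / N * δ) = b * δ / N := by ring
      rw [this, div_le_iff₀ hN0]
      nlinarith
    have hpa : 0 ≤ (a : ℝ) * (1 / N * δ) := by positivity
    have hpb : 0 ≤ (b : ℝ) * (1 / N * δ) := by positivity
    have key1 : (b : ℝ) * ((2 * (m * u) + 1) / (2 * b) + 1 / N * δ) - ((m * u : ℤ) : ℝ) =
        1 / 2 + b * (1 / N * δ) := by
      push_cast
      field_simp
      ring
    have huvR : (a : ℝ) * u + b * v = 1 := by exact_mod_cast huv
    have key2 : (a : ℝ) * ((2 * (m * u) + 1) / (2 * b) + 1 / N * δ) - ((-(m * v) : ℤ) : ℝ) =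
        x + m / b + a * (1 / N * δ) := by
      have h8 : (a : ℝ) * u = 1 - b * v := by linarith
      have h9 : (a : ℝ) * ((2 * (m * u) + 1) / (2 * b)) = x + m * (a * u) / b := by
        rw [hx]; field_simp; ring
      rw [mul_add, h9, h8]
      push_cast
      field_simp
      ring
    have hN0' : (N : ℚ) ≠ 0 := by
      have : N ≠ 0 := by rintro rfl; simp at hN0
      exact_mod_cast this
    refine ⟨(2 * (m * u) + 1) / (2 * b), 1 / N, by positivity, ?_, ?_⟩
    · push_cast
      refine le_nd (m * u) ?_ ?_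
      · rw [key1]; linarith
      · rw [key1]; linarith
    · push_cast
      have h10 : 1 / 4 ≤ x + m / b := by
        have : (1 / 4 - x) ≤ m / b := by rw [le_div_iff₀ hbR]; exact hm1
        linarith
      have h11 : x + m / b ≤ 3 / 4 := by
        have : (m : ℝ) / b < (1 / 4 - x) + 1 / b := by
          rw [div_lt_iff₀ hbR, add_mul, one_div_mul_cancel hbR.ne']; exact hm2
        have h12 : (1 : ℝ) / b ≤ 1 / 2 := one_div_le_one_div_of_le (by norm_num) hb2R
        linarith
      refine le_nd (-(m * v)) ?_ ?_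
      · rw [key2]; linarith
      · rw [key2]; linarith

/-- the uniform positive lower bound for a finite family -/
theorem exists_e {k : ℕ} (i₀ i₁ : Fin k) (hi : i₀ ≠ i₁) (F : Finset (Fin k → ℕ))
    (hF : ∀ s ∈ F, s ∈ SpeedSet k) : ∃ e : ℝ, 0 < e ∧ e ≤ 1 / 2 ∧ ∀ s ∈ F, ∃ t : ℝ,
      1 / 2 - δ ≤ |s i₀ * t - round (s i₀ * t)| ∧ 2 * δ ≤ |s i₁ * t - round (s i₁ * t)| ∧
        ∀ i, e ≤ |s i * t - round (s i * t)| := by
  classical
  induction F using Finset.induction_on with
  | empty => exact ⟨1 / 2, by norm_num, le_refl _, by simp⟩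
  | insert s F hs ih =>
    obtain ⟨e, he, he2, h⟩ := ih fun s hs => hF s (Finset.mem_insert_of_mem hs)
    obtain ⟨hpos, hinj⟩ := hF s (Finset.mem_insert_self s F)
    obtain ⟨t, ht, ht1, ht2⟩ := feas (s i₀) (s i₁) (hpos _) (hpos _) (hinj.ne hi)
    have hp : ∀ i, 0 < |s i * t - round (s i * t)| := by
      intro i
      rw [abs_pos, sub_ne_zero]
      exact (ht.natCast_mul (hpos i).ne').ne_int _
    obtain ⟨j, -, hj⟩ := Finset.exists_min_image Finset.univ
      (fun i => |s i * t - round (s i * t)|) ⟨i₀, Finset.mem_univ _⟩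
    refine ⟨min e |s j * t - round (s j * t)|, lt_min he (hp j), (min_le_left _ _).trans he2, ?_⟩
    intro s' hs'
    rcases Finset.mem_insert.1 hs' with rfl | hs'
    · exact ⟨t, ht1, ht2, fun i => (min_le_right _ _).trans (hj i (Finset.mem_univ _))⟩
    · obtain ⟨t', h1, h2, h3⟩ := h s' hs'
      exact ⟨t', h1, h2, fun i => (min_le_left _ _).trans (h3 i)⟩

/-- `‖t‖ ≥ 1 / 2 - δ` and `‖2 t‖ ≥ 2 δ` determine `t` up to sign modulo one. -/
theorem forced (t : ℝ) (h1 : 1 / 2 - δ ≤ |t - round t|) (h2 : 2 * δ ≤ |2 * t - round (2 * t)|) :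
    t = round t + (1 / 2 - δ) ∨ t = round t - (1 / 2 - δ) := by
  have hδ := δ_pos
  rcases le_or_gt 0 (t - round t) with h | h
  · left
    rw [abs_of_nonneg h] at h1
    have h3 := nd_le (2 * t) (2 * round t + 1)
    have h4 : t - round t ≤ 1 / 2 := (le_abs_self _).trans (abs_sub_round t)
    have h5 : |2 * t - ((2 * round t + 1 : ℤ) : ℝ)| = 1 - 2 * (t - round t) := by
      push_cast
      rw [abs_of_nonpos (by linarith)]; ring
    rw [h5] at h3
    linarith
  · right
    rw [abs_of_neg h] at h1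
    have h3 := nd_le (2 * t) (2 * round t - 1)
    have h4 : -(t - round t) ≤ 1 / 2 := (neg_le_abs _).trans (abs_sub_round t)
    have h5 : |2 * t - ((2 * round t - 1 : ℤ) : ℝ)| = 1 + 2 * (t - round t) := by
      push_cast
      rw [abs_of_nonneg (by linarith)]; ring
    rw [h5] at h3
    linarith

/-- **Theorem.** For no `k ≥ 3` is the mixed loneliness parameter space of dimension `k` determined
by finitely many speed sets. -/
theorem result : ∀ k : ℕ, 3 ≤ k → ¬ FinitelyDetermined k := by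
  rintro k hk ⟨F, hF, hM⟩
  have hδ := δ_pos
  have hδ' := δ_lt
  let i₀ : Fin k := ⟨0, by omega⟩
  let i₁ : Fin k := ⟨1, by omega⟩
  let i₂ : Fin k := ⟨2, by omega⟩
  have h01 : i₀ ≠ i₁ := by simp [i₀, i₁]
  obtain ⟨e, he, he2, hFe⟩ := exists_e i₀ i₁ h01 F hF
  let d : Fin k → ℝ := fun i => if i = i₀ then 1 / 2 - δ else if i = i₁ then 2 * δ else e
  have hd : ∀ i, 0 < d i ∧ d i ≤ 1 / 2 := by
    intro i
    simp only [d]
    split_ifs
    · constructor <;> linarith
    · constructor <;> linarith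
    · exact ⟨he, he2⟩
  have hmem : d ∈ MLPS k := by
    rw [hM]
    refine ⟨hd, fun s hs => ⟨hd, ?_⟩⟩
    obtain ⟨t, h1, h2, h3⟩ := hFe s hs
    refine ⟨t, fun i => ?_⟩
    simp only [d]
    split_ifs with h4 h5
    · rw [h4]; exact h1
    · rw [h5]; exact h2
    · exact h3 i
  -- the excluding speed set
  obtain ⟨n, hn⟩ := exists_nat_gt (3 / e)
  obtain ⟨K, hK, -, hK2⟩ := Real.exists_nat_abs_mul_sub_round_le (1 / 2 - δ) (n := n + 1) (by omega)
  let s : Fin k → ℕ := fun i => if (i : ℕ) = 0 then 1 else if (i : ℕ) = 1 then 2 else 3 * K + (i - 2)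
  have hs : s ∈ SpeedSet k := by
    constructor
    · intro i
      simp only [s]
      split_ifs <;> omega
    · intro i j hij
      simp only [s] at hij
      apply Fin.ext
      split_ifs at hij <;> omega
  obtain ⟨-, t, ht⟩ := hmem.2 s hs
  have e0 := ht i₀
  have e1 := ht i₁
  have e2 := ht i₂
  have h20 : i₂ ≠ i₀ := by simp [i₀, i₂]
  have h21 : i₂ ≠ i₁ := by simp [i₁, i₂]
  simp only [d, s, if_true, h01.symm, if_false, h20, h21] at e0 e1 e2
  norm_num [i₀, i₁, i₂] at e0 e1 e2
  have hf := forced t (by norm_num; linarith) (by linarith)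
  -- `‖3 K t‖ ≤ 3 / (n + 2) < e`
  have hlt : 3 / ((n : ℝ) + 2) < e := by
    rw [div_lt_iff₀ (by positivity)]
    rw [div_lt_iff₀ he] at hn
    nlinarith
  have hK3 : |(K : ℝ) * (1 / 2 - δ) - round ((K : ℝ) * (1 / 2 - δ))| ≤ 1 / ((n : ℝ) + 2) := by
    have : (((n + 1 : ℕ) : ℝ) + 1) = (n : ℝ) + 2 := by push_cast; ring
    rw [this] at hK2
    exact hK2
  have hfin : |3 * (K : ℝ) * t - round (3 * (K : ℝ) * t)| ≤ 3 / ((n : ℝ) + 2) := by
    set ρ : ℤ := round ((K : ℝ) * (1 / 2 - δ)) with hρ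
    have h3 : 3 * |(K : ℝ) * (1 / 2 - δ) - ρ| ≤ 3 / ((n : ℝ) + 2) := by
      calc 3 * |(K : ℝ) * (1 / 2 - δ) - ρ| ≤ 3 * (1 / ((n : ℝ) + 2)) := by linarith
        _ = _ := by ring
    rcases hf with hf | hf
    · refine (nd_le _ (3 * K * round t + 3 * ρ)).trans (le_trans (le_of_eq ?_) h3)
      rw [show (3 : ℝ) * |(K : ℝ) * (1 / 2 - δ) - ρ| = |3 * ((K : ℝ) * (1 / 2 - δ) - ρ)| by
        rw [abs_mul]; norm_num]
      congr 1
      push_cast
      have : t - round t = 1 / 2 - δ := by linarith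
      linear_combination 3 * (K : ℝ) * this
    · refine (nd_le _ (3 * K * round t - 3 * ρ)).trans (le_trans (le_of_eq ?_) h3)
      rw [show (3 : ℝ) * |(K : ℝ) * (1 / 2 - δ) - ρ| = |-(3 * ((K : ℝ) * (1 / 2 - δ) - ρ))| by
        rw [abs_neg, abs_mul]; norm_num]
      congr 1
      push_cast
      have : t - round t = -(1 / 2 - δ) := by linarith
      linear_combination 3 * (K : ℝ) * this
  have : e ≤ 3 / ((n : ℝ) + 2) := by
    refine le_trans ?_ hfin
    exact e2
  linarith

end Pool.Agent.Results.MP_b1d502_nt.NotFinitelyDetermined
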